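import Pool.Agent.V7H76.AD.Spec

/-! Project AD, piece BLK. -/

set_option autoImplicit false

open Finset
open scoped Classical

namespace Pool.Agent.V7H67.AD

open Pool.Agent.V7H76.AD

/-- one block -/
lemma blk1 {P t : ℕ} {A : Finset ℕ} {lab : ℕ → ℕ} {α : ℕ} (hP : 1 ≤ P) (hA : A.card ≤ P)
    (h : ∀ g, A.card * ((range t).filter (fun r => r / P = g ∧ lab r = α)).card ≤ 3 * P) (g : ℕ) :
    A.card * ((Ico (g * (P * P)) ((g + 1) * (P * P))).filter
      (fun j => j ≤ t * P ∧ Jp P lab α j)).card ≤ 4 * (P * P) := by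
  set R := (range t).filter (fun r => r / P = g ∧ lab r = α) with hR
  have hsub : (Ico (g * (P * P)) ((g + 1) * (P * P))).filter
      (fun j => j ≤ t * P ∧ Jp P lab α j) ⊆
      (range P).image (fun i => g * (P * P) + i * P) ∪
        (R ×ˢ range P).image (fun u : ℕ × ℕ => u.1 * P + u.2) := by
    intro j hj
    rw [mem_filter, mem_Ico] at hj
    obtain ⟨⟨h1, h2⟩, h3, h4⟩ := hj
    have hjg : j / P / P = g := by
      rw [Nat.div_div_eq_div_mul]
      exact Nat.div_eq_of_lt_le h1 h2
    have hdm : j / P * P + j % P = j := Nat.div_add_mod' j P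
    rw [mem_union]
    by_cases h0 : j % P = 0
    · left
      rw [mem_image]
      refine ⟨j / P % P, mem_range.2 (Nat.mod_lt _ hP), ?_⟩
      have h5 : j / P / P * P + j / P % P = j / P := Nat.div_add_mod' _ _
      rw [hjg] at h5
      rw [h0, add_zero] at hdm
      calc g * (P * P) + j / P % P * P = (g * P + j / P % P) * P := by ring
        _ = j := by rw [h5, hdm]
    · right
      have h6 : lab (j / P) = α := by
        unfold Jp at h4
        exact h4.resolve_left h0
      rw [mem_image]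
      refine ⟨(j / P, j % P), ?_, hdm⟩
      rw [mem_product, hR, mem_filter, mem_range, mem_range]
      refine ⟨⟨?_, hjg, h6⟩, Nat.mod_lt _ hP⟩
      rw [Nat.div_lt_iff_lt_mul hP]
      refine lt_of_le_of_ne h3 ?_
      rintro rfl
      exact h0 (Nat.mul_mod_left _ _)
  have hc := card_le_card hsub
  have hc1 : ((range P).image (fun i => g * (P * P) + i * P)).card ≤ P :=
    card_image_le.trans (card_range P).le
  have hc2 : ((R ×ˢ range P).image (fun u : ℕ × ℕ => u.1 * P + u.2)).card ≤ R.card * P :=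
    card_image_le.trans (by rw [card_product, card_range])
  have hg := h g
  rw [← hR] at hg
  calc A.card * _ ≤ A.card * (P + R.card * P) :=
        Nat.mul_le_mul_left _ (hc.trans ((card_union_le _ _).trans (add_le_add hc1 hc2)))
    _ = A.card * P + (A.card * R.card) * P := by ring
    _ ≤ P * P + 3 * P * P := add_le_add (Nat.mul_le_mul_right _ hA) (Nat.mul_le_mul_right _ hg)
    _ = 4 * (P * P) := by ring

theorem t_BLK : S_BLK := by
  intro P t A lab α hP hA h x y
  rcases Nat.lt_or_ge x y with hxy | hxy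
  swap
  · rw [Ico_eq_empty_of_le hxy, filter_empty, card_empty, mul_zero]
    exact Nat.zero_le _
  have hQ : 0 < P * P := Nat.mul_pos hP hP
  set Q := P * P with hQdef
  have hsub : (Ico x y).filter (fun j => j ≤ t * P ∧ Jp P lab α j) ⊆
      (Icc (x / Q) ((y - 1) / Q)).biUnion (fun g => (Ico (g * Q) ((g + 1) * Q)).filter
        (fun j => j ≤ t * P ∧ Jp P lab α j)) := by
    intro j hj
    rw [mem_filter, mem_Ico] at hj
    rw [mem_biUnion]
    refine ⟨j / Q, mem_Icc.2 ⟨Nat.div_le_div_right hj.1.1, Nat.div_le_div_right (by omega)⟩, ?_⟩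
    rw [mem_filter, mem_Ico]
    refine ⟨⟨Nat.div_mul_le_self j Q, ?_⟩, hj.2⟩
    rw [mul_comm]
    exact Nat.lt_mul_div_succ j hQ
  have hc := (card_le_card hsub).trans card_biUnion_le
  have h1 : A.card * ∑ g ∈ Icc (x / Q) ((y - 1) / Q), ((Ico (g * Q) ((g + 1) * Q)).filter
        (fun j => j ≤ t * P ∧ Jp P lab α j)).card ≤ (Icc (x / Q) ((y - 1) / Q)).card * (4 * Q) := by
    rw [mul_sum]
    refine (sum_le_sum fun g _ => blk1 hP hA h g).trans ?_
    rw [sum_const, smul_eq_mul]
  refine (Nat.mul_le_mul_left _ hc).trans (h1.trans ?_)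
  rw [Nat.card_Icc]
  have h2 : (y - 1) / Q * Q ≤ y - 1 := Nat.div_mul_le_self _ _
  have h3 : x < (x / Q + 1) * Q := by
    rw [mul_comm]
    exact Nat.lt_mul_div_succ x hQ
  have h4 : x / Q ≤ (y - 1) / Q := Nat.div_le_div_right (by omega)
  obtain ⟨d, hd⟩ := Nat.exists_eq_add_of_le h4
  have h5 : (y - 1) / Q + 1 - x / Q = d + 1 := by omega
  rw [h5]
  have h6 : (x / Q + d) * Q ≤ y - 1 := by rw [← hd]; exact h2
  have h7 : (x / Q + d) * Q = x / Q * Q + d * Q := by ring
  have h8 : (x / Q + 1) * Q = x / Q * Q + Q := by ring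
  have h9 : (d + 1) * (4 * Q) = 4 * (d * Q) + 4 * Q := by ring
  have h10 : 8 * P * P = 8 * Q := by rw [hQdef]; ring
  rw [h9, h10]
  omega

end Pool.Agent.V7H67.AD
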